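import Pool.Agent.H24.RSM.Stmts

/-!
# Rational sphere maps, module AUT: automorphisms of the ball are linear fractional
-/

set_option autoImplicit false

open Metric Set

namespace Pool.Agent.H15.RSM

open Pool.Agent.H24.RSM

variable {n : ℕ}

theorem zero_mem : (0 : E n) ∈ Bn n := by simp [Bn]

theorem mem_Bn {z : E n} : z ∈ Bn n ↔ ‖z‖ < 1 := by simp [Bn]

theorem norm_eq {g g' : E n → E n} (hg : DifferentiableOn ℂ g (Bn n))
    (hgm : MapsTo g (Bn n) (Bn n)) (hg' : DifferentiableOn ℂ g' (Bn n))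
    (hgm' : MapsTo g' (Bn n) (Bn n)) (hl : ∀ z ∈ Bn n, g' (g z) = z) (h0 : g 0 = 0)
    (h0' : g' 0 = 0) {z : E n} (hz : z ∈ Bn n) : ‖g z‖ = ‖z‖ := by
  apply le_antisymm
  · exact Complex.norm_le_norm_of_mapsTo_ball hg (hgm.mono_right ball_subset_closedBall) h0
      (mem_Bn.1 hz)
  · have h1 := Complex.norm_le_norm_of_mapsTo_ball hg' (hgm'.mono_right ball_subset_closedBall)
      h0' (mem_Bn.1 (hgm hz))
    rwa [hl z hz] at h1

theorem hom {g g' : E n → E n} (hg : DifferentiableOn ℂ g (Bn n))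
    (hgm : MapsTo g (Bn n) (Bn n)) (hg' : DifferentiableOn ℂ g' (Bn n))
    (hgm' : MapsTo g' (Bn n) (Bn n)) (hl : ∀ z ∈ Bn n, g' (g z) = z) (h0 : g 0 = 0)
    (h0' : g' 0 = 0) {z : E n} (hz : z ∈ Bn n) {t : ℂ} (ht : ‖t‖ < 1) :
    g (t • z) = t • g z := by
  rcases eq_or_ne z 0 with rfl | hz0
  · simp [h0]
  have hr : 0 < ‖z‖ := norm_pos_iff.2 hz0
  have hr1 : ‖z‖ < 1 := mem_Bn.1 hz
  have hrc : ((‖z‖ : ℝ) : ℂ) ≠ 0 := by exact_mod_cast hr.ne'
  set e : E n := ((‖z‖ : ℝ) : ℂ)⁻¹ • z with he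
  have hne : ‖e‖ = 1 := by
    rw [he, norm_smul, norm_inv, Complex.norm_real, norm_norm, inv_mul_cancel₀ hr.ne']
  have hez : ((‖z‖ : ℝ) : ℂ) • e = z := by
    rw [he, smul_smul, mul_inv_cancel₀ hrc, one_smul]
  set h : ℂ → E n := fun ζ => g (ζ • e) with hh
  have hmem : ∀ ζ ∈ ball (0 : ℂ) 1, ζ • e ∈ Bn n := by
    intro ζ hζ
    rw [mem_Bn, norm_smul, hne, mul_one]
    simpa using hζ
  have hd : DifferentiableOn ℂ h (ball 0 1) := by
    refine hg.comp ?_ hmem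
    exact (differentiable_id.smul_const e).differentiableOn
  have hh0 : h 0 = 0 := by simp [hh, h0]
  have hmaps : MapsTo h (ball 0 1) (closedBall (h 0) 1) := by
    intro ζ hζ
    rw [hh0]
    exact ball_subset_closedBall (hgm (hmem ζ hζ))
  have hz₀ : ((‖z‖ : ℝ) : ℂ) ∈ ball (0 : ℂ) 1 := by
    simpa using hr1
  have hsl : dslope h 0 ((‖z‖ : ℝ) : ℂ) = ((‖z‖ : ℝ) : ℂ)⁻¹ • g z := by
    rw [dslope_of_ne _ hrc, slope_def_module, hh0, sub_zero, sub_zero]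
    simp only [hh, hez]
  have heq : ‖dslope h 0 ((‖z‖ : ℝ) : ℂ)‖ = 1 / 1 := by
    rw [hsl, norm_smul, norm_inv, Complex.norm_real, norm_norm,
      norm_eq hg hgm hg' hgm' hl h0 h0' hz, inv_mul_cancel₀ hr.ne', div_one]
  have key := Complex.affine_of_mapsTo_ball_of_norm_dslope_eq_div hd hmaps hz₀ heq
  have htm : t * ((‖z‖ : ℝ) : ℂ) ∈ ball (0 : ℂ) 1 := by
    rw [mem_ball_zero_iff, norm_mul, Complex.norm_real, norm_norm]
    nlinarith [norm_nonneg t]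
  have h2 := key htm
  simp only [hh0, hsl, zero_add, sub_zero] at h2
  have h3 : h (t * ((‖z‖ : ℝ) : ℂ)) = g (t • z) := by
    simp only [hh, mul_smul, hez]
  rw [← h3, h2, smul_smul, mul_assoc, mul_inv_cancel₀ hrc, mul_one]

theorem lin {g g' : E n → E n} (hg : DifferentiableOn ℂ g (Bn n))
    (hgm : MapsTo g (Bn n) (Bn n)) (hg' : DifferentiableOn ℂ g' (Bn n))
    (hgm' : MapsTo g' (Bn n) (Bn n)) (hl : ∀ z ∈ Bn n, g' (g z) = z) (h0 : g 0 = 0)
    (h0' : g' 0 = 0) {z : E n} (hz : z ∈ Bn n) : g z = fderiv ℂ g 0 z := by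
  have hda : DifferentiableAt ℂ g 0 := hg.differentiableAt (isOpen_ball.mem_nhds zero_mem)
  have h1 : HasDerivAt (fun t : ℂ => g (t • z)) (fderiv ℂ g 0 z) 0 := by
    have h2 : HasDerivAt (fun t : ℂ => t • z) z 0 := by
      simpa using (hasDerivAt_id (0 : ℂ)).smul_const z
    have h3 : HasFDerivAt g (fderiv ℂ g 0) ((fun t : ℂ => t • z) 0) := by
      simpa using hda.hasFDerivAt
    exact h3.comp_hasDerivAt (0 : ℂ) h2
  have h4 : HasDerivAt (fun t : ℂ => t • g z) (g z) 0 := by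
    simpa using (hasDerivAt_id (0 : ℂ)).smul_const (g z)
  have h5 : (fun t : ℂ => g (t • z)) =ᶠ[nhds 0] fun t : ℂ => t • g z := by
    filter_upwards [ball_mem_nhds (0 : ℂ) one_pos] with t ht
    exact hom hg hgm hg' hgm' hl h0 h0' hz (by simpa using ht)
  exact (h4.congr_of_eventuallyEq h5).unique h1

/-- Module AUT. -/
theorem aut (hB : BoostStmt) (hI : InvStmt) (hF : FracStmt) : AutStmt := by
  intro n γ ⟨hγd, hγm, δ, hδd, hδm, hδγ, hγδ⟩
  have ha : ‖γ 0‖ < 1 := mem_Bn.1 (hγm zero_mem)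
  obtain ⟨Ma, hMa, hMa0⟩ := hB n (γ 0, 1) (by simpa using ha)
  obtain ⟨Mb, hMb, hMba, hMab⟩ := hI n Ma hMa
  obtain ⟨hfr, hfd, hfm, δa, hδad, hδam, hδaf, hfδa⟩ := hF n Ma hMa
  have hg : DifferentiableOn ℂ (fun z => frac Ma (γ z)) (Bn n) := hfd.comp hγd hγm
  have hgm : MapsTo (fun z => frac Ma (γ z)) (Bn n) (Bn n) := hfm.comp hγm
  have hg' : DifferentiableOn ℂ (fun z => δ (δa z)) (Bn n) := hδd.comp hδad hδam
  have hgm' : MapsTo (fun z => δ (δa z)) (Bn n) (Bn n) := hδm.comp hδam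
  have hl : ∀ z ∈ Bn n, (fun z => δ (δa z)) ((fun z => frac Ma (γ z)) z) = z := by
    intro z hz
    simp only
    rw [hδaf _ (hγm hz), hδγ z hz]
  have h0 : (fun z => frac Ma (γ z)) 0 = 0 := by
    simp [frac, hMa0]
  have h0' : (fun z => δ (δa z)) (0 : E n) = 0 := by
    have := hl 0 zero_mem
    rwa [h0] at this
  set L : E n →L[ℂ] E n := fderiv ℂ (fun z => frac Ma (γ z)) 0 with hL
  have hlin : ∀ z ∈ Bn n, frac Ma (γ z) = L z := fun z hz =>
    lin hg hgm hg' hgm' hl h0 h0' hz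
  have hnorm : ∀ z : E n, ‖L z‖ = ‖z‖ := by
    intro z
    rcases eq_or_ne z 0 with rfl | hz0
    · simp
    have hr : 0 < ‖z‖ := norm_pos_iff.2 hz0
    have hc : ((2 * ‖z‖ : ℝ) : ℂ) ≠ 0 := by
      exact_mod_cast (by positivity : (2 * ‖z‖ : ℝ) ≠ 0)
    set w : E n := ((2 * ‖z‖ : ℝ) : ℂ)⁻¹ • z with hw
    have hwn : ‖w‖ = 1 / 2 := by
      rw [hw, norm_smul, norm_inv, Complex.norm_real, Real.norm_of_nonneg (by positivity)]
      field_simp
    have hwm : w ∈ Bn n := by rw [mem_Bn, hwn]; norm_num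
    have h1 : ‖L w‖ = ‖w‖ := by
      rw [← hlin w hwm]
      exact norm_eq hg hgm hg' hgm' hl h0 h0' hwm
    rw [hw, map_smul, norm_smul, norm_smul] at h1
    exact mul_left_cancel₀ (by simpa using hc) h1
  refine ⟨Mb.comp ((L : E n →ₗ[ℂ] E n).prodMap LinearMap.id), ?_, ?_⟩
  · intro x
    have h1 := hMb ((L x.1, x.2))
    simp only [hnorm] at h1
    exact h1
  · intro z hz
    obtain ⟨hs, -⟩ := hfr (γ z) (hγm hz)
    set s := (Ma (γ z, 1)).2 with hsdef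
    have h1 : (L z, (1 : ℂ)) = s⁻¹ • Ma (γ z, 1) := by
      apply Prod.ext
      · rw [← hlin z hz]
        rfl
      · simp [← hsdef, hs]
    have h2 : Mb (L z, (1 : ℂ)) = s⁻¹ • (γ z, (1 : ℂ)) := by
      rw [h1, map_smul, hMba]
    have h3 : (Mb.comp ((L : E n →ₗ[ℂ] E n).prodMap LinearMap.id)) (z, 1) =
        s⁻¹ • (γ z, (1 : ℂ)) := h2
    unfold frac
    rw [h3]
    simp only [Prod.smul_fst, Prod.smul_snd, smul_eq_mul, mul_one, inv_inv, smul_smul]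
    rw [mul_inv_cancel₀ hs, one_smul]

end Pool.Agent.H15.RSM
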